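import Pool.Agent.Lib.MP_defcf3_al.BR.BaseC

namespace BR7.H4

universe u

theorem disc : DiscStatement.{u} := by
  intro F Ω _ _ _ _ a
  have h1 : FiniteDimensional F (IntermediateField.adjoin F {(a : Ω)}) :=
    IntermediateField.adjoin.finiteDimensional (Algebra.IsIntegral.isIntegral (R := F) (a : Ω))
  have h2 := IntermediateField.fixingSubgroup_isOpen (IntermediateField.adjoin F {(a : Ω)})
  have h3 : IsOpen ((MulAction.stabilizer (Ω ≃ₐ[F] Ω) a : Subgroup (Ω ≃ₐ[F] Ω)) : Set (Ω ≃ₐ[F] Ω)) := by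
    refine Subgroup.isOpen_mono (H₁ := (IntermediateField.adjoin F {(a : Ω)}).fixingSubgroup) ?_ h2
    intro g hg
    rw [MulAction.mem_stabilizer_iff]
    apply Units.ext
    have := (IntermediateField.mem_fixingSubgroup_iff _ _).1 hg (a : Ω)
      (IntermediateField.mem_adjoin_simple_self F (a : Ω))
    simpa using this
  exact h3

section

variable {Ω : Type u} [Field Ω] {n : ℕ} [NeZero n] {ζ : Ωˣ}

theorem pow_val_inj (h : IsPrimitiveRoot ζ n) {i j : ZMod n} (e : ζ ^ i.val = ζ ^ j.val) : i = j := by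
  have := h.pow_inj (ZMod.val_lt i) (ZMod.val_lt j) e
  exact ZMod.val_injective n this

theorem pow_val_add (h : IsPrimitiveRoot ζ n) (i j : ZMod n) :
    ζ ^ (i + j).val = ζ ^ i.val * ζ ^ j.val := by
  rw [← pow_add, ZMod.val_add]
  have := pow_mod_orderOf ζ (i.val + j.val)
  rw [← h.eq_orderOf] at this
  exact this

theorem dlog_pow (h : IsPrimitiveRoot ζ n) (i : ZMod n) : dlog n ζ (ζ ^ i.val) = i := by
  have hex : ∃ j : ZMod n, ζ ^ i.val = ζ ^ j.val := ⟨i, rfl⟩
  unfold dlog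
  rw [dif_pos hex]
  exact (pow_val_inj h hex.choose_spec).symm

theorem pow_dlog (h : IsPrimitiveRoot ζ n) {x : Ωˣ} (hx : x ^ n = 1) : ζ ^ (dlog n ζ x).val = x := by
  obtain ⟨i, hi, e0⟩ := (IsPrimitiveRoot.coe_units_iff.2 h).eq_pow_of_pow_eq_one
    (show (x : Ω) ^ n = 1 by rw [← Units.val_pow_eq_pow_val, hx, Units.val_one])
  have e : ζ ^ i = x := Units.ext (by rw [Units.val_pow_eq_pow_val, e0])
  have e2 : x = ζ ^ ((i : ZMod n)).val := by
    rw [ZMod.val_natCast, Nat.mod_eq_of_lt hi, e]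
  conv_lhs => rw [e2, dlog_pow h]
  exact e2.symm

theorem dlog_mul (h : IsPrimitiveRoot ζ n) {x y : Ωˣ} (hx : x ^ n = 1) (hy : y ^ n = 1) :
    dlog n ζ (x * y) = dlog n ζ x + dlog n ζ y := by
  apply pow_val_inj h
  rw [pow_dlog h (by rw [mul_pow, hx, hy, one_mul]), pow_val_add h, pow_dlog h hx, pow_dlog h hy]

end

theorem dlog : DlogStatement.{u} := by
  intro Ω _ n _ ζ h
  exact ⟨fun x hx => pow_dlog h hx, fun x y hx hy => dlog_mul h hx hy, fun i => dlog_pow h i⟩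

end BR7.H4
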